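import Pool.Agent.Helper5.BD.Defs
import Pool.Agent.Helper27.SG.Perturb

/-!
# Bounded degeneracy, module C9: double counting of triangles
-/

noncomputable section

open Finset Helper5.CR Classical

namespace Helper5.BD

variable {V E X : Type} [Fintype V] [Fintype E] [Fintype X] {C : CSys V E X} {d : ℕ}

section C9

theorem c9_fib {α β : Type} [Fintype β] (s : Finset α) (π : α → β) (F : β → ℕ) (n : ℕ)
    (h : ∀ b, (s.filter (fun a => π a = b)).card ≤ n) : ∑ a ∈ s, F (π a) ≤ n * ∑ b, F b := by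
  rw [← Finset.sum_fiberwise s π, Finset.mul_sum]
  refine Finset.sum_le_sum fun b _ => ?_
  rw [Finset.sum_congr rfl (fun a ha => by rw [(Finset.mem_filter.1 ha).2] : ∀ a ∈ s.filter (fun a => π a = b),
    F (π a) = F b), Finset.sum_const, smul_eq_mul]
  exact Nat.mul_le_mul_right _ (h b)

theorem c9_g (O : Ori C d) (g : E) :
    ((univ.filter (fun q : E × E × E => O.tri q.1 q.2.1 q.2.2)).filter (fun q => q.2.1 = g)).card ≤ d := by
  refine le_trans (Finset.card_le_card_of_injOn (fun q => q.2.2) ?_ ?_) (O.out (O.lo g))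
  · intro q hq
    have hq' := Finset.mem_filter.1 (Finset.mem_coe.1 hq)
    have h1 := (Finset.mem_filter.1 hq'.1).2
    refine Finset.mem_coe.2 (Finset.mem_filter.2 ⟨Finset.mem_univ _, ?_⟩)
    rw [← hq'.2]
    exact h1.1.symm
  · rintro ⟨f, g1, h⟩ hq ⟨f', g1', h'⟩ hq' e
    have a := Finset.mem_filter.1 (Finset.mem_coe.1 hq)
    have b := Finset.mem_filter.1 (Finset.mem_coe.1 hq')
    have a1 := (Finset.mem_filter.1 a.1).2
    have b1 := (Finset.mem_filter.1 b.1).2
    have a2 : g1 = g := a.2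
    have b2 : g1' = g := b.2
    have e' : h = h' := e
    subst a2 b2 e'
    have : f = f' := O.uniq _ _ (a1.2.1.symm.trans b1.2.1) (a1.2.2.symm.trans b1.2.2)
    rw [this]

theorem c9_h (O : Ori C d) (h : E) :
    ((univ.filter (fun q : E × E × E => O.tri q.1 q.2.1 q.2.2)).filter (fun q => q.2.2 = h)).card ≤ d := by
  refine le_trans (Finset.card_le_card_of_injOn (fun q => q.2.1) ?_ ?_) (O.out (O.lo h))
  · intro q hq
    have hq' := Finset.mem_filter.1 (Finset.mem_coe.1 hq)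
    have h1 := (Finset.mem_filter.1 hq'.1).2
    refine Finset.mem_coe.2 (Finset.mem_filter.2 ⟨Finset.mem_univ _, ?_⟩)
    rw [← hq'.2]
    exact h1.1
  · rintro ⟨f, g1, h1⟩ hq ⟨f', g1', h1'⟩ hq' e
    have a := Finset.mem_filter.1 (Finset.mem_coe.1 hq)
    have b := Finset.mem_filter.1 (Finset.mem_coe.1 hq')
    have a1 := (Finset.mem_filter.1 a.1).2
    have b1 := (Finset.mem_filter.1 b.1).2
    have a2 : h1 = h := a.2
    have b2 : h1' = h := b.2
    have e' : g1 = g1' := e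
    subst a2 b2 e'
    have : f = f' := O.uniq _ _ (a1.2.1.symm.trans b1.2.1) (a1.2.2.symm.trans b1.2.2)
    rw [this]

theorem c9_one (F : E → V) : ∑ a : V, (univ.filter (fun e => F e = a)).card = Fintype.card E := by
  rw [← Finset.card_univ, Finset.card_eq_sum_card_fiberwise (f := F) (t := univ) (fun _ _ => by simp)]

theorem c9_deg (O : Ori C d) : ∑ a : V, O.deg a ≤ 2 * Fintype.card E := by
  have h : ∀ a : V, O.deg a ≤ (univ.filter (fun e => O.lo e = a)).card + (univ.filter (fun e => O.hi e = a)).card := by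
    intro a
    unfold Ori.deg
    rw [Finset.filter_or]
    exact Finset.card_union_le _ _
  calc ∑ a : V, O.deg a ≤ ∑ a : V, ((univ.filter (fun e => O.lo e = a)).card + (univ.filter (fun e => O.hi e = a)).card) :=
        Finset.sum_le_sum fun a _ => h a
    _ = 2 * Fintype.card E := by
        rw [Finset.sum_add_distrib, c9_one, c9_one]; ring

/-- C9. -/
theorem sum_tri (O : Ori C d) :
    ∑ q ∈ univ.filter (fun q : E × E × E => O.tri q.1 q.2.1 q.2.2),
      (C.k q.2.1 + C.k q.2.2 + O.deg (O.lo q.2.1)) ≤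
    4 * d * Fintype.card X + 2 * d ^ 2 * Fintype.card E := by
  rw [Finset.sum_add_distrib, Finset.sum_add_distrib]
  have h1 := c9_fib (univ.filter (fun q : E × E × E => O.tri q.1 q.2.1 q.2.2)) (fun q => q.2.1) C.k d (c9_g O)
  have h2 := c9_fib (univ.filter (fun q : E × E × E => O.tri q.1 q.2.1 q.2.2)) (fun q => q.2.2) C.k d (c9_h O)
  have h3 := c9_fib (univ.filter (fun q : E × E × E => O.tri q.1 q.2.1 q.2.2)) (fun q => q.2.1)
    (fun g => O.deg (O.lo g)) d (c9_g O)
  have h4 := c9_fib (univ : Finset E) O.lo O.deg d (fun b => O.out b)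
  have h5 := c9_deg O
  have h6 := C.sum_k_univ
  rw [h6] at h1 h2
  have h7 : ∑ g : E, O.deg (O.lo g) ≤ d * (2 * Fintype.card E) := h4.trans (Nat.mul_le_mul_left _ h5)
  have h8 := h3.trans (Nat.mul_le_mul_left d h7)
  calc _ ≤ d * (2 * Fintype.card X) + d * (2 * Fintype.card X) + d * (d * (2 * Fintype.card E)) :=
        add_le_add (add_le_add h1 h2) h8
    _ = _ := by ring

/-- the number of triangles over an edge -/
theorem c9_cm (O : Ori C d) (f : E) :
    (O.cm f).card ≤ (univ.filter (fun q : E × E => O.tri f q.1 q.2)).card := by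
  refine Finset.card_le_card_of_surjOn (fun q => O.lo q.1) ?_
  intro a ha
  obtain ⟨⟨g, g1, g2⟩, ⟨h, h1, h2⟩⟩ := (Finset.mem_filter.1 (Finset.mem_coe.1 ha)).2
  exact ⟨(g, h), Finset.mem_coe.2 (Finset.mem_filter.2 ⟨Finset.mem_univ _, g1.trans h1.symm, g2, h2⟩), g1⟩

/-- C9. -/
theorem sum_A2_diff (O : Ori C d) (p B : ℕ)
    (hs : ∑ q ∈ univ.filter (fun q : E × E × E => O.tri q.1 q.2.1 q.2.2),
      (C.k q.2.1 + C.k q.2.2 + O.deg (O.lo q.2.1)) ≤
      4 * d * Fintype.card X + 2 * d ^ 2 * Fintype.card E) :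
    p * ∑ f ∈ O.A2 p \ O.Fs B, C.k f ≤
      4 * B * (4 * d * Fintype.card X + 2 * d ^ 2 * Fintype.card E) := by
  have h1 : ∀ f ∈ O.A2 p \ O.Fs B, p * C.k f ≤ ∑ q ∈ univ.filter (fun q : E × E => O.tri f q.1 q.2),
      4 * B * (C.k q.1 + C.k q.2 + O.deg (O.lo q.1)) := by
    intro f hf
    obtain ⟨hf1, hf2⟩ := Finset.mem_sdiff.1 hf
    have hp : p ≤ (O.cm f).card := (Finset.mem_filter.1 hf1).2.le
    calc p * C.k f ≤ (univ.filter (fun q : E × E => O.tri f q.1 q.2)).card * C.k f :=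
          Nat.mul_le_mul_right _ (hp.trans (c9_cm O f))
      _ = ∑ q ∈ univ.filter (fun q : E × E => O.tri f q.1 q.2), C.k f := by rw [Finset.sum_const, smul_eq_mul]
      _ ≤ _ := by
          refine Finset.sum_le_sum fun q hq => ?_
          by_contra hc
          exact hf2 (Finset.mem_filter.2 ⟨Finset.mem_univ _, q.1, q.2, (Finset.mem_filter.1 hq).2, (not_le.1 hc).le⟩)
  calc p * ∑ f ∈ O.A2 p \ O.Fs B, C.k f = ∑ f ∈ O.A2 p \ O.Fs B, p * C.k f := Finset.mul_sum _ _ _
    _ ≤ ∑ f ∈ O.A2 p \ O.Fs B, ∑ q ∈ univ.filter (fun q : E × E => O.tri f q.1 q.2),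
        4 * B * (C.k q.1 + C.k q.2 + O.deg (O.lo q.1)) := Finset.sum_le_sum h1
    _ ≤ ∑ f : E, ∑ q ∈ univ.filter (fun q : E × E => O.tri f q.1 q.2),
        4 * B * (C.k q.1 + C.k q.2 + O.deg (O.lo q.1)) :=
          Finset.sum_le_sum_of_subset (Finset.subset_univ _)
    _ = ∑ q ∈ univ.filter (fun q : E × E × E => O.tri q.1 q.2.1 q.2.2),
        4 * B * (C.k q.2.1 + C.k q.2.2 + O.deg (O.lo q.2.1)) := by
          rw [Finset.sum_filter, Fintype.sum_prod_type]
          refine Finset.sum_congr rfl fun f _ => ?_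
          rw [Finset.sum_filter]
    _ = 4 * B * ∑ q ∈ univ.filter (fun q : E × E × E => O.tri q.1 q.2.1 q.2.2),
        (C.k q.2.1 + C.k q.2.2 + O.deg (O.lo q.2.1)) := (Finset.mul_sum _ _ _).symm
    _ ≤ _ := Nat.mul_le_mul_left _ hs

end C9

end Helper5.BD
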